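import Pool.Agent.H76D.B
import Pool.Agent.B17.LB
import Pool.Agent.B17.LC

set_option autoImplicit false

namespace Pool.Agent.H76G

open ArithmeticFunction Finset Pool.Agent.H76D

theorem X5 {q K m : ℕ} (hq5 : 5 ≤ q) (h : q ^ 2 ≤ 2 * K * m) : q ^ 5 ≤ 5 * K ^ 3 * m ^ 3 := by
  have h1 := Nat.pow_le_pow_left h 3
  have h2 : (q ^ 2) ^ 3 = q * q ^ 5 := by ring
  have h3 : (2 * K * m) ^ 3 = 8 * (K ^ 3 * m ^ 3) := by ring
  rw [h2, h3] at h1
  have h4 : 5 * q ^ 5 ≤ q * q ^ 5 := Nat.mul_le_mul_right _ hq5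
  have h5 : 5 * K ^ 3 * m ^ 3 = 5 * (K ^ 3 * m ^ 3) := by ring
  rw [h5]
  omega

theorem X3g {p q k K a b c t m : ℕ} (hp : p.Prime) (hp2 : p ≠ 2) (hq : q.Prime) (hq5 : 5 ≤ q) (ha : 1 ≤ a)
    (h1 : ¬ p ∣ q + 1) (h2 : ¬ p ∣ q - 1) (hk : k + 1 = 2 * K) (hK : K ≠ 0)
    (hc : c = padicValNat p (sigma 1 (q ^ k))) (hc1 : 1 ≤ c) (hct : c + t = 2 * a)
    (hg : (p - 1) * q ^ b + 1 = p ^ (2 * a + 1)) (hm : p ^ t ≤ m) :
    q ^ 2 ≤ 2 * K * m := by
  have : Fact p.Prime := ⟨hp⟩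
  have hq1 : 1 < q := hq.one_lt
  have hp3 : 3 ≤ p := by
    have := hp.two_le
    omega
  have hW0 : sigma 1 (q ^ k) ≠ 0 := W_ne hq
  have hq2 : q ^ 2 - 1 = (q + 1) * (q - 1) := by
    have := Nat.sq_sub_sq q 1
    simpa using this
  -- `p ∣ q ^ b - 1`
  have hqb : 1 ≤ q ^ b := Nat.one_le_pow _ _ (by omega)
  have hb1 : p ∣ q ^ b - 1 := by
    have h3 : p * q ^ b = p ^ (2 * a + 1) + (q ^ b - 1) := by
      have h4 : p * q ^ b = (p - 1) * q ^ b + q ^ b := by
        obtain ⟨s, hs⟩ : ∃ s, p = s + 1 := ⟨p - 1, by omega⟩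
        subst hs
        simp only [Nat.add_sub_cancel]
        ring
      omega
    have h5 : p ∣ p ^ (2 * a + 1) + (q ^ b - 1) := by
      rw [← h3]
      exact dvd_mul_right _ _
    exact (Nat.dvd_add_right (dvd_pow_self p (by omega))).1 h5
  have hb3 : 3 ≤ b := by
    by_contra hcon
    have h3 : b = 0 ∨ b = 1 ∨ b = 2 := by omega
    rcases h3 with h3 | h3 | h3
    · subst h3
      rw [pow_zero, mul_one] at hg
      have h4 : p ^ 1 = p ^ (2 * a + 1) := by rw [pow_one]; omega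
      have := Nat.pow_right_injective (by omega : 2 ≤ p) h4
      omega
    · subst h3
      rw [pow_one] at hb1
      exact h2 hb1
    · subst h3
      rw [hq2] at hb1
      rcases (Nat.Prime.dvd_mul hp).1 hb1 with h | h
      · exact h1 h
      · exact h2 h
  -- the gcd
  have hWd : sigma 1 (q ^ k) ∣ q ^ (2 * K) - 1 := ⟨q - 1, (W_eq hq hk).symm⟩
  have hpW : p ∣ sigma 1 (q ^ k) := by
    by_contra h
    rw [padicValNat.eq_zero_of_not_dvd h] at hc
    omega
  set g := Nat.gcd b (2 * K) with hgdef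
  have hg0 : 0 < g := Nat.gcd_pos_of_pos_left _ (by omega)
  have hgcd : p ∣ q ^ g - 1 := by
    have h3 : p ∣ Nat.gcd (q ^ b - 1) (q ^ (2 * K) - 1) := Nat.dvd_gcd hb1 (hpW.trans hWd)
    rwa [Nat.pow_sub_one_gcd_pow_sub_one] at h3
  obtain ⟨n, hn⟩ : g ∣ 2 * K := Nat.gcd_dvd_right _ _
  have hn0 : n ≠ 0 := by
    rintro rfl
    omega
  have hqg1 : 1 < q ^ g := Nat.one_lt_pow (by omega) hq1
  have hnp : ¬ p ∣ q ^ g := by
    intro h
    have h3 : p ∣ q ^ g - (q ^ g - 1) := Nat.dvd_sub h hgcd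
    have h4 : q ^ g - (q ^ g - 1) = 1 := by omega
    rw [h4] at h3
    exact hp.one_lt.ne' (Nat.dvd_one.1 h3)
  have h3 := padicValNat.pow_sub_pow (p := p) (x := q ^ g) (y := 1) (hp.odd_of_ne_two hp2)
    hqg1 hgcd hnp hn0
  rw [← pow_mul, ← hn, one_pow] at h3
  have hv1 : padicValNat p (q ^ g - 1) ≤ 1 := by
    by_contra hcon
    push Not at hcon
    have h4 : p ^ 2 ∣ q ^ g - 1 := (padicValNat_dvd_iff_le (by omega)).2 hcon
    have h5 : q ^ g - 1 ∣ q ^ b - 1 := by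
      obtain ⟨y, hy⟩ : g ∣ b := Nat.gcd_dvd_left _ _
      rw [hy, pow_mul]
      have := Nat.sub_dvd_pow_sub_pow (q ^ g) 1 y
      rwa [one_pow] at this
    obtain ⟨w, hw⟩ := h4.trans h5
    have h6 : p ^ 2 ∣ p := by
      have h7 : p ^ 2 ∣ (p - 1) * (q ^ b - 1) + p := by
        have h8 : (p - 1) * (q ^ b - 1) + p = p ^ (2 * a + 1) := by
          have h9 : (p - 1) * (q ^ b - 1) + (p - 1) = (p - 1) * q ^ b := by
            have : q ^ b = (q ^ b - 1) + 1 := by omega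
            conv_rhs => rw [this]
            ring
          omega
        rw [h8]
        exact pow_dvd_pow p (by omega)
      have h8 : p ^ 2 ∣ (p - 1) * (q ^ b - 1) := by
        rw [hw]
        exact ⟨(p - 1) * w, by ring⟩
      exact (Nat.dvd_add_right h8).1 h7
    have h7 := Nat.le_of_dvd (by omega) h6
    nlinarith
  have hpc : p ^ c ≤ p * K := by
    have h4 : c ≤ padicValNat p (q ^ (2 * K) - 1) := by
      rw [hc]
      have h5 : q ^ (2 * K) - 1 ≠ 0 := by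
        have : 1 < q ^ (2 * K) := Nat.one_lt_pow (by omega) hq1
        omega
      exact (padicValNat_dvd_iff_le h5).1 (pow_padicValNat_dvd.trans hWd)
    have h5 : p ^ padicValNat p n ∣ K := by
      have h6 : p ^ padicValNat p n ∣ 2 * K := by
        rw [hn]
        exact pow_padicValNat_dvd.mul_left _
      have h7 : Nat.Coprime (p ^ padicValNat p n) 2 := by
        refine Nat.Coprime.pow_left _ ((Nat.Prime.coprime_iff_not_dvd hp).2 ?_)
        intro h
        exact hp2 ((Nat.prime_dvd_prime_iff_eq hp Nat.prime_two).1 h)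
      exact h7.dvd_of_dvd_mul_left h6
    calc p ^ c ≤ p ^ (1 + padicValNat p n) := Nat.pow_le_pow_right (by omega) (by omega)
      _ = p * p ^ padicValNat p n := by rw [pow_add, pow_one]
      _ ≤ p * K := Nat.mul_le_mul_left _ (Nat.le_of_dvd (Nat.pos_of_ne_zero hK) h5)
  have hKm : p ^ (2 * a) ≤ p * (K * m) := by
    calc p ^ (2 * a) = p ^ c * p ^ t := by rw [← hct, pow_add]
      _ ≤ (p * K) * m := Nat.mul_le_mul hpc hm
      _ = p * (K * m) := by ring
  have hp5 : 5 ≤ p := by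
    have hne3 : p ≠ 3 := by
      rintro rfl
      have h30 : 3 ∣ q := by omega
      have h31 := (Nat.prime_dvd_prime_iff_eq Nat.prime_three hq).1 h30
      omega
    have hne4 : p ≠ 4 := by
      rintro rfl
      exact absurd hp (by norm_num)
    omega
  rcases Nat.lt_or_ge b 4 with hb4 | hb4
  · have hb5 : b = 3 := by omega
    subst hb5
    have h10 : p ∣ q ^ 4 + q ^ 2 + 1 := by
      have h11 : q ^ 3 - 1 = (q - 1) * (q ^ 2 + q + 1) := by
        obtain ⟨s, hs⟩ : ∃ s, q = s + 1 := ⟨q - 1, by omega⟩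
        subst hs
        simp only [Nat.add_sub_cancel]
        have : (s + 1) ^ 3 = s * ((s + 1) ^ 2 + (s + 1) + 1) + 1 := by ring
        rw [this, Nat.add_sub_cancel]
      rw [h11] at hb1
      rcases (Nat.Prime.dvd_mul hp).1 hb1 with h | h
      · exact absurd h h2
      · have h12 : q ^ 4 + q ^ 2 + 1 = (q ^ 2 + q + 1) * (q * (q - 1) + 1) := by
          obtain ⟨s, hs⟩ : ∃ s, q = s + 1 := ⟨q - 1, by omega⟩
          subst hs
          simp only [Nat.add_sub_cancel]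
          ring
        rw [h12]
        exact Dvd.dvd.mul_right h _
    exact Pool.Agent.B17.LB hp hp5 hq5 h10 (by norm_num) hg hct hpc hm
  · -- `b ≥ 4`
    have e1 : 4 * q ^ b ≤ 5 * p ^ (2 * a) := by
      have g1 : (p - 1) * q ^ b < p * p ^ (2 * a) := by
        have : p * p ^ (2 * a) = p ^ (2 * a + 1) := by ring
        rw [this, ← hg]
        omega
      have g2 : 4 * p ≤ 5 * (p - 1) := by omega
      have g3 : 4 * p * q ^ b ≤ 5 * (p - 1) * q ^ b := Nat.mul_le_mul_right _ g2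
      have g4 : p * (4 * q ^ b) ≤ p * (5 * p ^ (2 * a)) := by
        calc p * (4 * q ^ b) = 4 * p * q ^ b := by ring
          _ ≤ 5 * (p - 1) * q ^ b := g3
          _ = 5 * ((p - 1) * q ^ b) := by ring
          _ ≤ 5 * (p * p ^ (2 * a)) := by omega
          _ = p * (5 * p ^ (2 * a)) := by ring
      exact Nat.le_of_mul_le_mul_left g4 (by omega)
    have e2 : p ^ (2 * a) ≤ q ^ b := by
      have g1 : p * p ^ (2 * a) ≤ p * q ^ b := by
        have : p * p ^ (2 * a) = p ^ (2 * a + 1) := by ring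
        rw [this, ← hg]
        have g3 : (p - 1) * q ^ b + q ^ b = p * q ^ b := by
          obtain ⟨z, rfl⟩ : ∃ z, p = z + 1 := ⟨p - 1, by omega⟩
          simp only [Nat.add_sub_cancel]
          ring
        omega
      exact Nat.le_of_mul_le_mul_left g1 (by omega)
    have e3 : p ^ 2 ≤ q ^ b := (Nat.pow_le_pow_right hp.pos (by omega)).trans e2
    have e4 : 4 * q ^ b ≤ 5 * (p * (K * m)) := e1.trans (Nat.mul_le_mul_left _ hKm)
    have e5 : (4 * q ^ b) ^ 2 ≤ (5 * (p * (K * m))) ^ 2 := Nat.pow_le_pow_left e4 2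
    have e6 : q ^ b * (16 * q ^ b) ≤ q ^ b * (25 * (K * m) ^ 2) := by
      calc q ^ b * (16 * q ^ b) = (4 * q ^ b) ^ 2 := by ring
        _ ≤ (5 * (p * (K * m))) ^ 2 := e5
        _ = p ^ 2 * (25 * (K * m) ^ 2) := by ring
        _ ≤ q ^ b * (25 * (K * m) ^ 2) := Nat.mul_le_mul_right _ e3
    have e7 : 16 * q ^ b ≤ 25 * (K * m) ^ 2 := Nat.le_of_mul_le_mul_left e6 hqb
    have e8 : q ^ 4 ≤ q ^ b := Nat.pow_le_pow_right (by omega) hb4
    have e9 : (4 * q ^ 2) ^ 2 ≤ (5 * (K * m)) ^ 2 := by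
      calc (4 * q ^ 2) ^ 2 = 16 * q ^ 4 := by ring
        _ ≤ 16 * q ^ b := Nat.mul_le_mul_left _ e8
        _ ≤ 25 * (K * m) ^ 2 := e7
        _ = (5 * (K * m)) ^ 2 := by ring
    have e10 := (Nat.pow_le_pow_iff_left two_ne_zero).1 e9
    have : 2 * K * m = 2 * (K * m) := by ring
    rw [this]
    omega

/-- exceptional primes of `q + 1` -/
theorem X2g {p q a b u v K c t m : ℕ} (hp : p.Prime) (hp2 : p ≠ 2) (hq5 : 5 ≤ q)
    (hq4 : q % 4 = 1) (hv : 1 ≤ v) (hP : p ^ v ∣ q + 1) (hPq : 2 * p ^ v ≤ q + 1)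
    (hva : v ≤ 2 * a) (hg : (p - 1) * u * q ^ b + 1 = p ^ (2 * a + 1)) (hb : Even b)
    (hb2 : 2 ≤ b) (hu : 1 ≤ u) (hct : c + t = 2 * a) (hc : p ^ c ≤ p ^ v * K)
    (hm : u * p ^ t ≤ m) : q ^ 5 ≤ 5 * K ^ 3 * m ^ 3 := by
  have hp3 : 3 ≤ p := by
    have := hp.two_le
    omega
  rcases Pool.Agent.B17.LC hp hp2 hq5 hq4 hv hP hPq hva hg hb hb2 hu hct hc hm with h | ⟨rfl, rfl, rfl, ha⟩
  · exact X5 hq5 h
  · rw [pow_one] at hc
    rw [one_mul] at hm
    rw [mul_one] at hg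
    have hKm : p ^ (2 * a) ≤ p * (K * m) := by
      calc p ^ (2 * a) = p ^ c * p ^ t := by rw [← hct, pow_add]
        _ ≤ (p * K) * m := Nat.mul_le_mul hc hm
        _ = p * (K * m) := by ring
    have e1 : 2 * q ^ 2 ≤ 3 * p ^ (2 * a) := by
      have g1 : (p - 1) * q ^ 2 < p * p ^ (2 * a) := by
        have : p * p ^ (2 * a) = p ^ (2 * a + 1) := by ring
        rw [this, ← hg]
        omega
      have g2 : 2 * p ≤ 3 * (p - 1) := by omega
      have g3 : 2 * p * q ^ 2 ≤ 3 * (p - 1) * q ^ 2 := Nat.mul_le_mul_right _ g2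
      have g4 : p * (2 * q ^ 2) ≤ p * (3 * p ^ (2 * a)) := by
        calc p * (2 * q ^ 2) = 2 * p * q ^ 2 := by ring
          _ ≤ 3 * (p - 1) * q ^ 2 := g3
          _ = 3 * ((p - 1) * q ^ 2) := by ring
          _ ≤ 3 * (p * p ^ (2 * a)) := by omega
          _ = p * (3 * p ^ (2 * a)) := by ring
      exact Nat.le_of_mul_le_mul_left g4 (by omega)
    have e2 : p ^ (2 * a) ≤ q ^ 2 := by
      have g1 : p * p ^ (2 * a) ≤ p * q ^ 2 := by
        have : p * p ^ (2 * a) = p ^ (2 * a + 1) := by ring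
        rw [this, ← hg]
        have g3 : (p - 1) * q ^ 2 + q ^ 2 = p * q ^ 2 := by
          obtain ⟨z, rfl⟩ : ∃ z, p = z + 1 := ⟨p - 1, by omega⟩
          simp only [Nat.add_sub_cancel]
          ring
        have : 1 ≤ q ^ 2 := Nat.one_le_pow _ _ (by omega)
        omega
      exact Nat.le_of_mul_le_mul_left g1 (by omega)
    have e3 : p ^ 3 ≤ q := by
      have g1 : (p ^ 3) ^ 2 ≤ q ^ 2 := by
        calc (p ^ 3) ^ 2 = p ^ 6 := by ring
          _ ≤ p ^ (2 * a) := Nat.pow_le_pow_right hp.pos (by omega)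
          _ ≤ q ^ 2 := e2
      exact (Nat.pow_le_pow_iff_left two_ne_zero).1 g1
    have e4 : 2 * q ^ 2 ≤ 3 * (p * (K * m)) := e1.trans (Nat.mul_le_mul_left _ hKm)
    have e5 : (2 * q ^ 2) ^ 3 ≤ (3 * (p * (K * m))) ^ 3 := Nat.pow_le_pow_left e4 3
    have e6 : q * (8 * q ^ 5) ≤ q * (27 * (K * m) ^ 3) := by
      calc q * (8 * q ^ 5) = (2 * q ^ 2) ^ 3 := by ring
        _ ≤ (3 * (p * (K * m))) ^ 3 := e5
        _ = p ^ 3 * (27 * (K * m) ^ 3) := by ring
        _ ≤ q * (27 * (K * m) ^ 3) := Nat.mul_le_mul_right _ e3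
    have e7 : 8 * q ^ 5 ≤ 27 * (K * m) ^ 3 := Nat.le_of_mul_le_mul_left e6 (by omega)
    have : 5 * K ^ 3 * m ^ 3 = 5 * (K * m) ^ 3 := by ring
    rw [this]
    omega

end Pool.Agent.H76G
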